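import Pool.Agent.U152.HN.Alg

/-!
Congruences for Betti numbers.
-/

namespace Pool.Agent.U152.BE

open Polynomial Pool.Agent.U152.HN

universe u v

lemma refl {r : ℕ} (hr : r.Prime) (d : ℤ[X])
    (h : (r : ℤ[X]) ∣ (Polynomial.expand ℤ r : ℤ[X] →+* ℤ[X]) d * (1 + X) ^ 2) :
    (r : ℤ[X]) ∣ d := by
  have hC : ((r : ℕ) : ℤ[X]) = C (r : ℤ) := by simp
  rw [hC] at h ⊢
  have hp : Prime (C (r : ℤ) : ℤ[X]) := Polynomial.prime_C_iff.2 (Nat.prime_iff_prime_int.1 hr)
  rcases hp.dvd_or_dvd h with h1 | h1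
  · rw [C_dvd_iff_dvd_coeff] at h1 ⊢
    intro n
    have h2 := h1 (n * r)
    have h3 : ((Polynomial.expand ℤ r : ℤ[X] →+* ℤ[X]) d).coeff (n * r) = d.coeff n :=
      coeff_expand_mul hr.pos d n
    rw [h3] at h2
    exact h2
  · have h2 := hp.dvd_of_dvd_pow h1
    rw [C_dvd_iff_dvd_coeff] at h2
    have h3 := h2 0
    simp only [coeff_add, coeff_one_zero, coeff_X_zero, add_zero] at h3
    have h4 : r ∣ 1 := by exact_mod_cast h3
    exact (hr.one_lt.ne' (Nat.dvd_one.1 h4)).elim

/-- The quasi-projective varieties over an algebraically closed field of characteristic `p`, the Poincaré polynomials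
of the cohomology with compact support with coefficients `ℚ_l` for the prime numbers `l ≠ p` (the
elements of `Pl`), and, for an odd prime number `r ≠ p`, the quotient `cyc X = (X^r × E) / (ℤ/r)`,
where `E` is an elliptic curve, `ℤ/r` permutes the factors `X` cyclically and acts on `E` by the
translation by a point of order `r`. -/
structure BettiData (r : ℕ) where
  /-- varieties -/
  Var : Type u
  /-- the prime numbers `l ≠ p` -/
  Pl : Type v
  /-- the Poincaré polynomial -/
  poly : Pl → Var → ℤ[X]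
  /-- the quotient -/
  cyc : Var → Var
  poly_cyc : ∀ l A, (r : ℤ[X]) * poly l (cyc A) =
    (poly l A ^ r + ((r : ℤ[X]) - 1) * Polynomial.expand ℤ r (poly l A)) * (1 + X) ^ 2

namespace BettiData

variable {r : ℕ} (T : BettiData.{u, v} r)

/-- The Betti numbers for `l` and `m` are equal for all varieties. -/
def Equal (l m : T.Pl) : Prop := ∀ (A : T.Var) (i : ℕ), (T.poly l A).coeff i = (T.poly m A).coeff i

/-- The Betti numbers for `l` and `m` are congruent modulo `r` for all varieties. -/
def Congruent (l m : T.Pl) : Prop := ∀ (A : T.Var) (i : ℕ),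
  (r : ℤ) ∣ (T.poly l A).coeff i - (T.poly m A).coeff i

variable {T}

theorem main (hr : r.Prime) (l m : T.Pl) : T.Equal l m ↔ T.Congruent l m := by
  constructor
  · intro h A i
    rw [h A i, sub_self]
    exact dvd_zero _
  · intro h A i
    have hC : ∀ n : ℕ, ((n : ℕ) : ℤ[X]) = C (n : ℤ) := fun n => by simp
    have h0 : (r : ℤ[X]) ≠ 0 := by exact_mod_cast hr.ne_zero
    have h1 : ∀ k, 1 ≤ k → ∀ A, (r : ℤ[X]) ^ k ∣ T.poly l A - T.poly m A := by
      intro k hk
      induction k, hk using Nat.le_induction with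
      | base =>
        intro A
        rw [pow_one, hC, C_dvd_iff_dvd_coeff]
        intro i
        rw [coeff_sub]
        exact h A i
      | succ k hk ih =>
        intro A
        exact step r (mem_nonZeroDivisors_of_ne_zero h0)
          (Polynomial.expand ℤ r : ℤ[X] →+* ℤ[X]) ((1 + X) ^ 2) (refl hr) k hk _ _ _ _ (ih A)
          (ih (T.cyc A)) (T.poly_cyc l A) (T.poly_cyc m A)
    have h2 : ∀ k, 1 ≤ k → (r : ℤ) ^ k ∣ (T.poly l A).coeff i - (T.poly m A).coeff i := by
      intro k hk
      have h3 := h1 k hk A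
      have h4 : (r : ℤ[X]) ^ k = C ((r : ℤ) ^ k) := by simp
      rw [h4, C_dvd_iff_dvd_coeff] at h3
      have h5 := h3 i
      rwa [coeff_sub] at h5
    by_contra hne
    have h3 : (T.poly l A).coeff i - (T.poly m A).coeff i ≠ 0 := sub_ne_zero.2 hne
    set z := (T.poly l A).coeff i - (T.poly m A).coeff i with hz
    have h4 := Int.le_of_dvd (Int.natCast_pos.2 (Int.natAbs_pos.2 h3))
      ((Int.dvd_natAbs).2 (h2 (z.natAbs + 1) (by omega)))
    have h5 : z.natAbs + 1 < r ^ (z.natAbs + 1) := Nat.lt_pow_self hr.one_lt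
    have h6 : r ^ (z.natAbs + 1) ≤ z.natAbs := by exact_mod_cast h4
    omega

end BettiData

end Pool.Agent.U152.BE
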